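import Mathlib

set_option autoImplicit false

/-!
# Moments over short intervals from a pointwise bound
-/

namespace Pool.Agent.N407.BZ

open MeasureTheory

/-- moments of all orders from the bound `t ^ η` -/
lemma moment_le {Z : ℂ → ℂ} {σ η A B : ℝ} (hA : 2 ≤ A) (hAB : A ≤ B) (hη : 0 ≤ η)
    (h : ∀ t : ℝ, A ≤ t → t ≤ B → ‖Z (σ + t * Complex.I)‖ ≤ t ^ η) (k : ℕ) :
    ∫ t in A..B, ‖Z (σ + t * Complex.I)‖ ^ (2 * k) ≤ (B - A) * B ^ (2 * k * η) := by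
  have hB : 0 < B := by linarith
  have h1 : ∀ t ∈ Set.uIoc A B, ‖‖Z (σ + t * Complex.I)‖ ^ (2 * k)‖ ≤ B ^ (2 * k * η) := by
    intro t ht
    rw [Set.uIoc_of_le hAB] at ht
    rw [Real.norm_of_nonneg (by positivity)]
    have h2 : ‖Z (σ + t * Complex.I)‖ ≤ B ^ η :=
      (h t ht.1.le ht.2).trans (Real.rpow_le_rpow (by linarith [ht.1]) ht.2 hη)
    calc ‖Z (σ + t * Complex.I)‖ ^ (2 * k) ≤ (B ^ η) ^ (2 * k) := pow_le_pow_left₀ (norm_nonneg _) h2 _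
      _ = B ^ (2 * k * η) := by
        rw [← Real.rpow_natCast, ← Real.rpow_mul hB.le]
        congr 1
        push_cast
        ring
  have h3 := intervalIntegral.norm_integral_le_of_norm_le_const h1
  rw [abs_of_nonneg (by linarith)] at h3
  calc ∫ t in A..B, ‖Z (σ + t * Complex.I)‖ ^ (2 * k) ≤ ‖∫ t in A..B, ‖Z (σ + t * Complex.I)‖ ^ (2 * k)‖ :=
        Real.le_norm_self _
    _ ≤ B ^ (2 * k * η) * (B - A) := h3
    _ = _ := by ring

lemma mid_win {t A B g e : ℝ} (h1 : A ≤ t) (h2 : t ≤ B) (hA : |A - g| ≤ e) (hB : |B - g| ≤ e) : |t - g| ≤ e := by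
  obtain ⟨a1, a2⟩ := abs_le.1 hA
  obtain ⟨b1, b2⟩ := abs_le.1 hB
  rw [abs_le]
  constructor <;> linarith

end Pool.Agent.N407.BZ
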