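import Pool.Agent.N407.BZ.Win
import Pool.Agent.N407.OU.U

set_option autoImplicit false

/-!
# Barnes zeta functions for almost all weights: ordinates near the values of multiplicative functions
-/

namespace Pool.Agent.N407.BZ

open Filter MeasureTheory
open Pool.Agent.H131R5.BZ Pool.Agent.Y930.Bz Pool.Agent.Y616.BM
open Pool.Agent.N733.TG (LM Expanding)
open Pool.Agent.N760.IT (orb)

/-- the number of the unit intervals with a large value, for good parameters -/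
theorem ff_count {d : ℕ} {v : Fin d → ℝ} (hv : LinearIndependent ℚ v) (hG : Good v) {r : ℕ} (hr : 2 ≤ r)
    {a : ℝ} (ha : 0 < a) {w : Fin r → ℝ} (hw : ∀ i, 0 < w i)
    (hspan : Submodule.span ℚ (Set.range w) = Submodule.span ℚ (Set.range v)) {c : ℕ → ℂ} (hc : Tay a w c)
    (σ₁ : ℝ) {η s : ℝ} (hη : 0 ≤ η) (hs : 0 < s) (hs1 : 1 - 2 * η < s) :
    ∃ K : ℝ, 0 ≤ K ∧ ∀ X : ℕ, 1 ≤ X →
      ({n : ℕ | 1 ≤ n ∧ n ≤ X ∧ BadAt a w c ((r : ℝ) - d / 2) σ₁ η n}.ncard : ℝ) ≤ K * (X : ℝ) ^ s := by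
  obtain ⟨B, e, he, -, -⟩ := lin hv hspan
  have hdr : d ≤ r := by
    simpa using Fintype.card_le_of_injective e he
  have hdr' : (d : ℝ) ≤ r := Nat.cast_le.2 hdr
  have hr' : (2 : ℝ) ≤ r := by exact_mod_cast hr
  obtain ⟨m, hm⟩ : ∃ m : ℝ, m = (r : ℝ) - d / 2 := ⟨_, rfl⟩
  have hm1 : 1 ≤ m := by linarith
  obtain ⟨ε, hε⟩ : ∃ ε : ℝ, ε = s - (1 - 2 * η) := ⟨_, rfl⟩
  have hε0 : 0 < ε := by linarith
  obtain ⟨κ, hκ⟩ : ∃ κ : ℝ, κ = min (ε / 4) (1 / 2) := ⟨_, rfl⟩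
  have hκ0 : 0 < κ := by rw [hκ]; exact lt_min (by positivity) (by norm_num)
  have hκ1 : κ ≤ 1 / 2 := by rw [hκ]; exact min_le_right _ _
  have hκε : κ ≤ ε / 4 := by rw [hκ]; exact min_le_left _ _
  obtain ⟨C₀, hC₀, h1⟩ := second_moment' hv hG ha hw hspan hc
    (σ := m - κ) (m := m) (by linarith) (by linarith) (by linarith) (ε := ε / 2) (by positivity)
  obtain ⟨K, hK, h2⟩ := bad_count (σ₁ := σ₁) ha hw hc (α := m - κ) (κ := κ) (τ := 1 + 2 * (m - (m - κ)) + ε / 2)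
    (by linarith) hκ0 (by linarith) (by linarith) hC₀ h1 hη hs (by linarith)
  refine ⟨K, hK, fun X hX => ?_⟩
  have e1 : m - κ + κ = (r : ℝ) - d / 2 := by rw [hm]; ring
  have h3 := h2 X hX
  rw [e1] at h3
  exact h3

lemma half_count (P : ℕ → Prop) {K s : ℝ} (hK : 0 ≤ K) (hs : 0 < s)
    (h : ∀ X : ℕ, 1 ≤ X → ({n : ℕ | 1 ≤ n ∧ n ≤ X ∧ P n}.ncard : ℝ) ≤ K * (X : ℝ) ^ s) (X : ℝ) (hX : 1 ≤ X) :
    {n : ℕ | n ∈ {n : ℕ | 1 ≤ n ∧ P n} ∧ (n : ℝ) / 2 ≤ X}.Finite ∧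
      ({n : ℕ | n ∈ {n : ℕ | 1 ≤ n ∧ P n} ∧ (n : ℝ) / 2 ≤ X}.ncard : ℝ) ≤ (K * 2 ^ s) * X ^ s := by
  have e : {n : ℕ | n ∈ {n : ℕ | 1 ≤ n ∧ P n} ∧ (n : ℝ) / 2 ≤ X} = {n : ℕ | 1 ≤ n ∧ n ≤ ⌊2 * X⌋₊ ∧ P n} := by
    ext n
    simp only [Set.mem_ofPred_eq]
    rw [Nat.le_floor_iff (by linarith)]
    constructor
    · rintro ⟨⟨h1, h2⟩, h3⟩
      exact ⟨h1, by linarith, h2⟩
    · rintro ⟨h1, h2, h3⟩
      exact ⟨⟨h1, h3⟩, by linarith⟩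
  rw [e]
  have h1 : 1 ≤ ⌊2 * X⌋₊ := Nat.le_floor (by push_cast; linarith)
  refine ⟨(Set.finite_Iic ⌊2 * X⌋₊).subset (fun n hn => hn.2.1), (h _ h1).trans ?_⟩
  calc K * ((⌊2 * X⌋₊ : ℕ) : ℝ) ^ s ≤ K * (2 * X) ^ s := by
        apply mul_le_mul_of_nonneg_left _ hK
        exact Real.rpow_le_rpow (Nat.cast_nonneg _) (Nat.floor_le (by linarith)) hs.le
    _ = (K * 2 ^ s) * X ^ s := by
        rw [Real.mul_rpow (by norm_num) (by linarith)]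
        ring

lemma half_exp {G : ℕ → ℝ} {d : ℝ} (hG : Expanding G d) : Expanding (fun v => G v / 2) d where
  one_le := hG.one_le
  step := by
    obtain ⟨a, ha, h⟩ := hG.step
    exact ⟨a / 2, by positivity, fun v hv => by have := h v hv; linarith⟩
  growth := by
    obtain ⟨C, h⟩ := hG.growth
    exact ⟨C / 2, fun v hv => by have := h v hv; linarith⟩

lemma floor_win {t g v κ : ℝ} (ht : 0 ≤ t) (hv : 1 ≤ v) (hκ : 0 ≤ κ) (h : |t - g| ≤ v ^ κ) :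
    |((⌊t⌋₊ : ℕ) : ℝ) / 2 - g / 2| ≤ v ^ κ := by
  have h1 := Nat.floor_le ht
  have h2 := Nat.lt_floor_add_one t
  have h3 : 1 ≤ v ^ κ := Real.one_le_rpow hv hκ
  obtain ⟨h4, h5⟩ := abs_le.1 h
  rw [abs_le]
  constructor <;> linarith

lemma exists_s {δ η κ : ℝ} (hδ : 1 ≤ δ) (hκ1 : κ < 1) (h : δ * (1 - 2 * η) + κ < 1) :
    ∃ s : ℝ, 0 < s ∧ 1 - 2 * η < s ∧ δ * s + κ < 1 := by
  obtain ⟨M, hM⟩ : ∃ M : ℝ, M = max (1 - 2 * η) 0 := ⟨_, rfl⟩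
  have hM0 : 0 ≤ M := by rw [hM]; exact le_max_right _ _
  have hM1 : 1 - 2 * η ≤ M := by rw [hM]; exact le_max_left _ _
  have hM2 : δ * M + κ < 1 := by
    rcases max_choice (1 - 2 * η) (0 : ℝ) with h1 | h1
    · rw [hM, h1]
      exact h
    · rw [hM, h1]
      linarith
  have hδ0 : 0 < δ := by linarith
  refine ⟨M + (1 - δ * M - κ) / (2 * δ), ?_, ?_, ?_⟩
  · have : 0 < (1 - δ * M - κ) / (2 * δ) := div_pos (by linarith) (by linarith)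
    linarith
  · have : 0 < (1 - δ * M - κ) / (2 * δ) := div_pos (by linarith) (by linarith)
    linarith
  · have e : δ * (M + (1 - δ * M - κ) / (2 * δ)) = δ * M + (1 - δ * M - κ) / 2 := by
      field_simp
    rw [e]
    linarith

/-- a large value at an ordinate `t ≥ 2` gives a bad integer near the window -/
lemma bad_floor {r : ℕ} {a : ℝ} {w : Fin r → ℝ} {c : ℕ → ℂ} {s₀ σ₁ η t σ : ℝ} (ht : 2 ≤ t) (h1 : s₀ ≤ σ) (h2 : σ ≤ σ₁)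
    (h3 : t ^ η < ‖FF a w c ((σ : ℂ) + t * Complex.I)‖) : ⌊t⌋₊ ∈ {n : ℕ | 1 ≤ n ∧ BadAt a w c s₀ σ₁ η n} :=
  ⟨Nat.le_floor (by push_cast; linarith), t, σ, Nat.floor_le (by linarith), (Nat.lt_floor_add_one t).le, h1, h2, h3⟩

/-- near the values of a multiplicative function -/
theorem ff_mult {d : ℕ} {v : Fin d → ℝ} (hv : LinearIndependent ℚ v) (hGd : Good v) {r : ℕ} (hr : 2 ≤ r)
    {a : ℝ} (ha : 0 < a) {w : Fin r → ℝ} (hw : ∀ i, 0 < w i)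
    (hspan : Submodule.span ℚ (Set.range w) = Submodule.span ℚ (Set.range v)) {c : ℕ → ℂ} (hc : Tay a w c)
    {f : ℕ → ℕ} (hf : LM f) {G : ℕ → ℝ} {δ : ℝ} (hG : Expanding G δ) (σ₁ : ℝ) {η κ : ℝ} (hη : 0 ≤ η) (hκ : 0 ≤ κ)
    (hκ1 : κ < 1) (h : δ * (1 - 2 * η) + κ < 1) (U : ℕ) :
    ∃ N₀ : ℕ, ∀ N : ℕ, N₀ ≤ N →
      ({m : ℕ | 1 ≤ m ∧ m ≤ N ∧ ∃ t σ : ℝ, 2 ≤ t ∧ |t - G (f m)| ≤ (f m : ℝ) ^ κ ∧ (r : ℝ) - d / 2 ≤ σ ∧ σ ≤ σ₁ ∧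
        t ^ η < ‖FF a w c ((σ : ℂ) + t * Complex.I)‖}.ncard : ℝ) ≤ N / Real.log N ^ U := by
  obtain ⟨s, hs, hs1, hs2⟩ := exists_s hG.one_le hκ1 h
  obtain ⟨K, hK, h1⟩ := ff_count hv hGd hr ha hw hspan hc σ₁ hη hs hs1
  obtain ⟨N₀, hN₀⟩ := Pool.Agent.N578.TG.keep_unif (T := ℕ) hf (half_exp hG) hs.le hκ hs2 (K * 2 ^ s) U
  refine ⟨N₀, fun N hN => ?_⟩
  have h2 := hN₀ {n : ℕ | 1 ≤ n ∧ BadAt a w c ((r : ℝ) - d / 2) σ₁ η n} (fun n : ℕ => (n : ℝ) / 2)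
    (fun X hX => half_count _ hK hs h1 X hX) N hN
  refine le_trans ?_ h2
  have hfin : {m : ℕ | 1 ≤ m ∧ m ≤ N ∧ ∃ t ∈ {n : ℕ | 1 ≤ n ∧ BadAt a w c ((r : ℝ) - d / 2) σ₁ η n},
      |(t : ℝ) / 2 - G (f m) / 2| ≤ (f m : ℝ) ^ κ}.Finite := (Set.finite_Iic N).subset (fun m hm => hm.2.1)
  refine Nat.cast_le.2 (Set.ncard_le_ncard ?_ hfin)
  rintro m ⟨g1, g2, t, σ, g3, g4, g5, g6, g7⟩
  have hfm : (1 : ℝ) ≤ f m := by exact_mod_cast hf.pos m g1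
  exact ⟨g1, g2, ⌊t⌋₊, bad_floor g3 g5 g6 g7, floor_win (by linarith) hfm hκ g4⟩

/-- near almost all orbits of Euler's function -/
theorem ff_orb {d : ℕ} {v : Fin d → ℝ} (hv : LinearIndependent ℚ v) (hGd : Good v) {r : ℕ} (hr : 2 ≤ r)
    {a : ℝ} (ha : 0 < a) {w : Fin r → ℝ} (hw : ∀ i, 0 < w i)
    (hspan : Submodule.span ℚ (Set.range w) = Submodule.span ℚ (Set.range v)) {c : ℕ → ℂ} (hc : Tay a w c)
    {f : ℕ → ℕ} (hf : LM f) {G : ℕ → ℝ} {δ : ℝ} (hG : Expanding G δ) (σ₁ : ℝ) {η κ : ℝ} (hη : 0 ≤ η) (hκ : 0 ≤ κ)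
    (hκ1 : κ < 1) (h : δ * (1 - 2 * η) + κ < 1) :
    ∃ K : ℕ → ℕ, Tendsto K atTop atTop ∧ ∀ ε : ℝ, 0 < ε → ∃ N₀ : ℕ, ∀ N : ℕ, N₀ ≤ N →
      ({m : ℕ | 1 ≤ m ∧ m ≤ N ∧ ∃ k ≤ K m, ∃ t σ : ℝ, 2 ≤ t ∧ |t - G (orb f k m)| ≤ (orb f k m : ℝ) ^ κ ∧
        (r : ℝ) - d / 2 ≤ σ ∧ σ ≤ σ₁ ∧ t ^ η < ‖FF a w c ((σ : ℂ) + t * Complex.I)‖}.ncard : ℝ) ≤ ε * N := by
  obtain ⟨s, hs, hs1, hs2⟩ := exists_s hG.one_le hκ1 h
  obtain ⟨C, hC, h1⟩ := ff_count hv hGd hr ha hw hspan hc σ₁ hη hs hs1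
  obtain ⟨K, hK, hK2⟩ := Pool.Agent.N407.OU.orbit_unif (T := ℕ) hf (half_exp hG) hs.le hκ hs2 (C * 2 ^ s)
  refine ⟨K, hK, fun ε hε => ?_⟩
  obtain ⟨N₀, hN₀⟩ := hK2 ε hε
  refine ⟨N₀, fun N hN => ?_⟩
  have h2 := hN₀ {n : ℕ | 1 ≤ n ∧ BadAt a w c ((r : ℝ) - d / 2) σ₁ η n} (fun n : ℕ => (n : ℝ) / 2)
    (fun X hX => half_count _ hC hs h1 X hX) N hN
  refine le_trans ?_ h2
  have hfin : {m : ℕ | 1 ≤ m ∧ m ≤ N ∧ ∃ k ≤ K m, ∃ t ∈ {n : ℕ | 1 ≤ n ∧ BadAt a w c ((r : ℝ) - d / 2) σ₁ η n},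
      |(t : ℝ) / 2 - G (orb f k m) / 2| ≤ (orb f k m : ℝ) ^ κ}.Finite := (Set.finite_Iic N).subset (fun m hm => hm.2.1)
  refine Nat.cast_le.2 (Set.ncard_le_ncard ?_ hfin)
  rintro m ⟨g1, g2, k, gk, t, σ, g3, g4, g5, g6, g7⟩
  have hpos : ∀ j : ℕ, 1 ≤ Nat.totient^[j] m := by
    intro j
    induction j with
    | zero => exact g1
    | succ j ih =>
      rw [Function.iterate_succ_apply']
      exact Nat.totient_pos.2 ih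
  have hfm : (1 : ℝ) ≤ orb f k m := by exact_mod_cast hf.pos _ (hpos k)
  exact ⟨g1, g2, k, gk, ⌊t⌋₊, bad_floor g3 g5 g6 g7, floor_win (by linarith) hfm hκ g4⟩

end Pool.Agent.N407.BZ
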