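import Pool.Agent.N407.BZ.Near
import Pool.Agent.N375.AV.D

set_option autoImplicit false

/-!
# Barnes zeta functions for almost all weights: ordinates near the values of compositions of additive functions
-/

namespace Pool.Agent.N407.BZ

open Filter MeasureTheory
open Pool.Agent.H131R5.BZ Pool.Agent.Y930.Bz Pool.Agent.Y616.BM
open Pool.Agent.N733.TG (Expanding)
open Pool.Agent.N375.AV (PD comp)

/-- near the values of a composition of functions dominated by the largest prime factor -/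
theorem ff_add {d : ℕ} {v : Fin d → ℝ} (hv : LinearIndependent ℚ v) (hGd : Good v) {r : ℕ} (hr : 2 ≤ r)
    {a : ℝ} (ha : 0 < a) {w : Fin r → ℝ} (hw : ∀ i, 0 < w i)
    (hspan : Submodule.span ℚ (Set.range w) = Submodule.span ℚ (Set.range v)) {c : ℕ → ℂ} (hc : Tay a w c)
    (fs : List (ℕ → ℕ)) (hfs : ∀ f ∈ fs, PD f) {G : ℕ → ℝ} {δ : ℝ} (hG : Expanding G δ) (σ₁ : ℝ) {η κ : ℝ} (hη : 0 ≤ η)
    (hκ : 0 ≤ κ) (hκ1 : κ < 1) (h : δ * (1 - 2 * η) + κ < 1) :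
    ∃ b K : ℝ, 0 < b ∧ ∀ N : ℕ, 1 ≤ N →
      ({m : ℕ | 1 ≤ m ∧ m ≤ N ∧ 1 ≤ comp fs m ∧ ∃ t σ : ℝ, 2 ≤ t ∧ |t - G (comp fs m)| ≤ (comp fs m : ℝ) ^ κ ∧
        (r : ℝ) - d / 2 ≤ σ ∧ σ ≤ σ₁ ∧ t ^ η < ‖FF a w c ((σ : ℂ) + t * Complex.I)‖}.ncard : ℝ) ≤
        K * N * Real.exp (-(b * Real.log N ^ ((1 : ℝ) / (fs.length + 1)))) := by
  obtain ⟨s, hs, hs1, hs2⟩ := exists_s hG.one_le hκ1 h
  obtain ⟨C, hC, h1⟩ := ff_count hv hGd hr ha hw hspan hc σ₁ hη hs hs1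
  obtain ⟨b, K, hb, hK⟩ := Pool.Agent.N375.AV.windows_unif (T := ℕ) (fun n : ℕ => (n : ℝ) / 2) fs hfs (half_exp hG) hs.le
    hκ hs2 (C * 2 ^ s)
  refine ⟨b, K, hb, fun N hN => ?_⟩
  refine le_trans ?_ (hK {n : ℕ | 1 ≤ n ∧ BadAt a w c ((r : ℝ) - d / 2) σ₁ η n}
    (fun X hX => half_count _ hC hs h1 X hX) N hN)
  have hfin : {m : ℕ | 1 ≤ m ∧ m ≤ N ∧ ∃ t ∈ {n : ℕ | 1 ≤ n ∧ BadAt a w c ((r : ℝ) - d / 2) σ₁ η n},
      |(t : ℝ) / 2 - G (comp fs m) / 2| ≤ (comp fs m : ℝ) ^ κ}.Finite := (Set.finite_Iic N).subset (fun m hm => hm.2.1)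
  refine Nat.cast_le.2 (Set.ncard_le_ncard ?_ hfin)
  rintro m ⟨g1, g2, g0, t, σ, g3, g4, g5, g6, g7⟩
  have hfm : (1 : ℝ) ≤ comp fs m := by exact_mod_cast g0
  exact ⟨g1, g2, ⌊t⌋₊, bad_floor g3 g5 g6 g7, floor_win (by linarith) hfm hκ g4⟩

end Pool.Agent.N407.BZ
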