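import Pool.Agent.N407.BZ.Near
import Pool.Agent.N671.DA.Win

set_option autoImplicit false

/-!
# Barnes zeta functions for almost all weights: ordinates near the denominators of good approximations
-/

namespace Pool.Agent.N407.BZ

open Filter MeasureTheory
open Pool.Agent.H131R5.BZ Pool.Agent.Y930.Bz Pool.Agent.Y616.BM
open Pool.Agent.N671.DA (Solves Expanding)

lemma half_exp' {G : ℕ → ℝ} {d : ℝ} (hG : Expanding G d) : Expanding (fun v => G v / 2) d where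
  one_le := hG.one_le
  step := by
    obtain ⟨a, ha, h⟩ := hG.step
    exact ⟨a / 2, by positivity, fun v hv => by have := h v hv; linarith⟩
  growth := by
    obtain ⟨C, h⟩ := hG.growth
    exact ⟨C / 2, fun v hv => by have := h v hv; linarith⟩

/-- near the denominators of good simultaneous approximations -/
theorem ff_da {d : ℕ} {v : Fin d → ℝ} (hv : LinearIndependent ℚ v) (hGd : Good v) {r : ℕ} (hr : 2 ≤ r)
    {a : ℝ} (ha : 0 < a) {w : Fin r → ℝ} (hw : ∀ i, 0 < w i)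
    (hspan : Submodule.span ℚ (Set.range w) = Submodule.span ℚ (Set.range v)) {c : ℕ → ℂ} (hc : Tay a w c)
    {G : ℕ → ℝ} {δ : ℝ} (hG : Expanding G δ) (σ₁ : ℝ) {η κ : ℝ} (hη : 0 ≤ η) (hκ : 0 ≤ κ)
    (hκ1 : κ ≤ 1) {M : ℕ} (β : Fin M → ℝ) {τ : ℝ} (hτ : 0 < τ) :
    ∃ E : Set (Fin M → ℝ), dimH E ≤ ENNReal.ofReal ((M + (δ * max (1 - 2 * η) 0 + κ)) / (1 + τ)) ∧
      ∀ α, α ∉ E → ∀ b : ℝ, ∃ Q : ℕ, ∀ q : ℕ, Q ≤ q → Solves α β q (b * (q : ℝ) ^ (-τ)) →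
        ∀ t σ : ℝ, 2 ≤ t → |t - G q| ≤ (q : ℝ) ^ κ → (r : ℝ) - d / 2 ≤ σ → σ ≤ σ₁ →
          ‖FF a w c ((σ : ℂ) + t * Complex.I)‖ ≤ t ^ η := by
  obtain ⟨E, hE, hE2⟩ := Pool.Agent.N671.DA.approx_windows
    {n : ℕ | 1 ≤ n ∧ BadAt a w c ((r : ℝ) - d / 2) σ₁ η n} (fun n : ℕ => (n : ℝ) / 2) (half_exp' hG)
    (s := max (1 - 2 * η) 0) (κ := κ) (le_max_right _ _) hκ hκ1 (fun ε hε => by
      obtain ⟨K, hK, h1⟩ := ff_count hv hGd hr ha hw hspan hc σ₁ hη (s := max (1 - 2 * η) 0 + ε)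
        (by linarith [le_max_right (1 - 2 * η) (0 : ℝ)]) (by linarith [le_max_left (1 - 2 * η) (0 : ℝ)])
      exact ⟨K * 2 ^ (max (1 - 2 * η) 0 + ε), fun X hX => half_count _ hK
        (by linarith [le_max_right (1 - 2 * η) (0 : ℝ)]) h1 X hX⟩) β hτ
  refine ⟨E, hE, fun α hα b => ?_⟩
  obtain ⟨Q, hQ⟩ := hE2 α hα b
  refine ⟨max Q 1, fun q hq h1 t σ h2 h3 h4 h5 => ?_⟩
  by_contra hcon
  rw [not_le] at hcon
  have hq1 : (1 : ℝ) ≤ q := by exact_mod_cast (le_trans (le_max_right Q 1) hq)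
  exact hQ q (le_trans (le_max_left _ _) hq) h1 ⌊t⌋₊ (bad_floor h2 h4 h5 hcon) (floor_win (by linarith) hq1 hκ h3)

end Pool.Agent.N407.BZ
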