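import Pool.Agent.Y616.BM.Pt3

set_option autoImplicit false

/-!
# Barnes zeta functions: the number of the unit intervals of ordinates with a large value

A form of `Pool.Agent.Y616.BM.bad_measure` for windows: the measure of the set of the `u` within distance `1` of an ordinate
with a large value.
-/

namespace Pool.Agent.N407.BZ

open Finset Filter Topology MeasureTheory Complex Set Asymptotics
open Pool.Agent.H131R5.BZ Pool.Agent.Y930.Bz Pool.Agent.Y616.BM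

lemma gauss_lint2 (y : ℝ) : ∫⁻ t : ℝ, ENNReal.ofReal (Real.exp (-(y - t) ^ 2 / 2)) =
    ENNReal.ofReal (Real.sqrt (2 * Real.pi)) := by
  have h1 : Integrable fun x : ℝ => Real.exp (-(1 / 2) * x ^ 2) := integrable_exp_neg_mul_sq (by norm_num)
  have h2 : Integrable fun t : ℝ => Real.exp (-(y - t) ^ 2 / 2) := by
    have := h1.comp_sub_left y
    refine this.congr (ae_of_all _ fun t => ?_)
    show Real.exp (-(1 / 2) * (y - t) ^ 2) = Real.exp (-(y - t) ^ 2 / 2)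
    congr 1
    ring
  rw [← ofReal_integral_eq_lintegral_ofReal h2 (ae_of_all _ fun t => (Real.exp_pos _).le)]
  congr 1
  rw [integral_sub_left_eq_self (fun x : ℝ => Real.exp (-x ^ 2 / 2)) volume y]
  have := integral_gaussian (1 / 2)
  have e : (fun x : ℝ => Real.exp (-x ^ 2 / 2)) = fun x : ℝ => Real.exp (-(1 / 2) * x ^ 2) := by
    funext x
    congr 1
    ring
  rw [e, this]
  congr 1
  ring

variable {r : ℕ} {a : ℝ} {w : Fin r → ℝ} {c : ℕ → ℂ}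

/-- the measure of the points within distance `1` of an ordinate with a large value -/
theorem win_measure (ha : 0 < a) (hw : ∀ j, 0 < w j) (hc : Tay a w c) {α κ σ₁ τ C₀ : ℝ}
    (hα : 0 < α) (hκ : 0 < κ) (hκ1 : κ ≤ 1) (hτ : 1 ≤ τ) (hC₀ : 0 ≤ C₀)
    (h : ∀ T : ℝ, 1 ≤ T → ∫⁻ t in Icc 1 T, ‖FF a w c ((α : ℂ) + t * I)‖ₑ ^ 2 ≤
      ENNReal.ofReal (C₀ * T ^ τ)) {ε : ℝ} (hε : 0 ≤ ε) :
    ∃ C : ℝ, 0 ≤ C ∧ ∀ T : ℝ, 3 ≤ T →
      volume {u : ℝ | u ∈ Icc T (2 * T) ∧ ∃ t σ : ℝ, |t - u| ≤ 1 ∧ α + κ ≤ σ ∧ σ ≤ σ₁ ∧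
        t ^ ε < ‖FF a w c ((σ : ℂ) + t * I)‖} ≤ ENNReal.ofReal (C * T ^ (τ - 2 * ε)) := by
  obtain ⟨C, hC, hcb⟩ := cauchy_bound (σ₁ := σ₁) ha hw hc hα hκ hκ1
  set E : ℝ := Real.exp 1 with hE
  have hE1 : 1 ≤ E := Real.one_le_exp (by norm_num)
  set D : ℝ := C + C * E * (Real.sqrt (2 * Real.pi) * (C₀ * 10 ^ τ)) with hD
  have hD0 : 0 ≤ D := by positivity
  refine ⟨2 ^ (2 * ε) * D, by positivity, fun T hT => ?_⟩
  have hT0 : 0 < T := by linarith
  set Y : ℝ := 4 * T + 14 with hY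
  set f : ℝ → ENNReal := fun y => ‖FF a w c ((α : ℂ) + y * I)‖ₑ ^ 2 with hf
  have hFd : ∀ z : ℂ, 1 ≤ z.im → DifferentiableAt ℂ (FF a w c) z := fun z hz =>
    FF_diff ha hw hc (by
      intro k _ _ h
      have := congrArg Complex.im h
      simp at this
      linarith)
  have hfm : AEMeasurable f (volume.restrict (Icc 1 Y)) := by
    have h1 : ContinuousOn (fun y : ℝ => FF a w c ((α : ℂ) + y * I)) (Icc 1 Y) := by
      intro y hy
      exact (ContinuousAt.comp (g := FF a w c) (f := fun y : ℝ => (α : ℂ) + y * I)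
        (hFd _ (by simpa using hy.1)).continuousAt (by fun_prop)).continuousWithinAt
    exact (h1.aemeasurable measurableSet_Icc).enorm.pow_const 2
  set R : ℝ → ENNReal := fun u => ∫⁻ y in Icc 1 Y, f y * ENNReal.ofReal (Real.exp (-(y - u) ^ 2 / 2))
    with hR
  have hprod : AEMeasurable (fun p : ℝ × ℝ => f p.2 * ENNReal.ofReal (Real.exp (-(p.2 - p.1) ^ 2 / 2)))
      ((volume.restrict (Icc T (2 * T))).prod (volume.restrict (Icc 1 Y))) :=
    AEMeasurable.mul hfm.comp_snd (by fun_prop)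
  have hRm : AEMeasurable R (volume.restrict (Icc T (2 * T))) := hprod.lintegral_prod_right'
  set S : ℝ → ENNReal := fun u => ENNReal.ofReal C + ENNReal.ofReal (C * E) * R u with hS
  have hSm : AEMeasurable S (volume.restrict (Icc T (2 * T))) :=
    aemeasurable_const.add (hRm.const_mul _)
  -- the large values
  have hsub : {u : ℝ | u ∈ Icc T (2 * T) ∧ ∃ t σ : ℝ, |t - u| ≤ 1 ∧ α + κ ≤ σ ∧ σ ≤ σ₁ ∧
      t ^ ε < ‖FF a w c ((σ : ℂ) + t * I)‖} ⊆
      {u | ENNReal.ofReal ((T / 2) ^ (2 * ε)) ≤ S u} ∩ Icc T (2 * T) := by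
    rintro u ⟨hu, t, σ, htu, hσ, hσ1, hbig⟩
    refine ⟨?_, hu⟩
    obtain ⟨g1, g2⟩ := abs_le.1 htu
    have hu1 := hu.1
    have hu2 := hu.2
    have ht2 : 2 ≤ t := by linarith
    have ht0 : 0 < t := by linarith
    have h1 := hcb σ t hσ hσ1 ht2
    have h2 : (T / 2) ^ (2 * ε) ≤ ‖FF a w c ((σ : ℂ) + t * I)‖ ^ 2 := by
      calc (T / 2) ^ (2 * ε) ≤ t ^ (2 * ε) := Real.rpow_le_rpow (by positivity) (by linarith) (by linarith)
        _ = (t ^ ε) ^ 2 := by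
            rw [← Real.rpow_natCast, ← Real.rpow_mul ht0.le]
            congr 1
            push_cast
            ring
        _ ≤ _ := by gcongr
    set J : ℝ := ∫ y in (1 : ℝ)..(2 * t + 12),
        ‖FF a w c ((α : ℂ) + y * I)‖ ^ 2 * Real.exp (-(y - t) ^ 2) with hJ
    have h3 : ENNReal.ofReal J ≤ ENNReal.ofReal E * R u := by
      have h4 : J ≤ (∫⁻ y in Ioc 1 (2 * t + 12),
          ENNReal.ofReal ‖‖FF a w c ((α : ℂ) + y * I)‖ ^ 2 * Real.exp (-(y - t) ^ 2)‖).toReal := by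
        rw [hJ, intervalIntegral.integral_of_le (by linarith)]
        refine (le_abs_self _).trans ?_
        rw [← Real.norm_eq_abs]
        exact norm_integral_le_lintegral_norm _
      refine (ENNReal.ofReal_le_ofReal h4).trans (ENNReal.ofReal_toReal_le.trans ?_)
      have h5 : Ioc 1 (2 * t + 12) ⊆ Icc 1 Y := by
        intro y hy
        exact ⟨hy.1.le, by rw [hY]; linarith [hy.2]⟩
      refine (lintegral_mono_set h5).trans ?_
      rw [hR, ← lintegral_const_mul' _ _ ENNReal.ofReal_ne_top]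
      refine lintegral_mono fun y => ?_
      have h6 : Real.exp (-(y - t) ^ 2) ≤ E * Real.exp (-(y - u) ^ 2 / 2) := by
        rw [hE, ← Real.exp_add]
        apply Real.exp_le_exp.2
        have e1 : (t - u) ^ 2 ≤ 1 := by
          rw [← sq_abs]
          have := abs_nonneg (t - u)
          nlinarith
        have e2 : (y - u) ^ 2 = ((y - t) + (t - u)) ^ 2 := by ring
        nlinarith [sq_nonneg ((y - t) - (t - u))]
      calc ENNReal.ofReal ‖‖FF a w c ((α : ℂ) + y * I)‖ ^ 2 * Real.exp (-(y - t) ^ 2)‖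
          ≤ ENNReal.ofReal (‖FF a w c ((α : ℂ) + y * I)‖ ^ 2 * (E * Real.exp (-(y - u) ^ 2 / 2))) := by
            apply ENNReal.ofReal_le_ofReal
            rw [Real.norm_of_nonneg (by positivity)]
            gcongr
        _ = ENNReal.ofReal E * (f y * ENNReal.ofReal (Real.exp (-(y - u) ^ 2 / 2))) := by
            rw [ENNReal.ofReal_mul (by positivity), ENNReal.ofReal_mul (by positivity),
              ENNReal.ofReal_pow (norm_nonneg _), ofReal_norm]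
            simp only [hf]
            ring
    have hJ0 : 0 ≤ J := intervalIntegral.integral_nonneg (by linarith) fun y _ => by positivity
    calc ENNReal.ofReal ((T / 2) ^ (2 * ε)) ≤ ENNReal.ofReal (C * (1 + J)) :=
          ENNReal.ofReal_le_ofReal (h2.trans h1)
      _ = ENNReal.ofReal C + ENNReal.ofReal C * ENNReal.ofReal J := by
          rw [mul_add, mul_one, ENNReal.ofReal_add hC (by positivity), ENNReal.ofReal_mul hC]
      _ ≤ ENNReal.ofReal C + ENNReal.ofReal C * (ENNReal.ofReal E * R u) := by gcongr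
      _ = S u := by
          simp only [hS]
          rw [ENNReal.ofReal_mul hC, mul_assoc]
  have hint : ∫⁻ u in Icc T (2 * T), S u ≤ ENNReal.ofReal (D * T ^ τ) := by
    have h1 : ∫⁻ u in Icc T (2 * T), R u ≤
        ENNReal.ofReal (Real.sqrt (2 * Real.pi) * (C₀ * Y ^ τ)) := by
      calc ∫⁻ u in Icc T (2 * T), R u
          = ∫⁻ y in Icc 1 Y, ∫⁻ u in Icc T (2 * T),
            f y * ENNReal.ofReal (Real.exp (-(y - u) ^ 2 / 2)) :=
            lintegral_lintegral_swap hprod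
        _ ≤ ∫⁻ y in Icc 1 Y, f y * ENNReal.ofReal (Real.sqrt (2 * Real.pi)) := by
            refine lintegral_mono fun y => ?_
            have h2 : Measurable fun u : ℝ => ENNReal.ofReal (Real.exp (-(y - u) ^ 2 / 2)) := by
              fun_prop
            rw [lintegral_const_mul _ h2, ← gauss_lint2 y]
            gcongr
            exact Measure.restrict_le_self
        _ = (∫⁻ y in Icc 1 Y, f y) * ENNReal.ofReal (Real.sqrt (2 * Real.pi)) :=
            lintegral_mul_const' _ _ ENNReal.ofReal_ne_top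
        _ ≤ ENNReal.ofReal (C₀ * Y ^ τ) * ENNReal.ofReal (Real.sqrt (2 * Real.pi)) := by
            gcongr
            exact h Y (by rw [hY]; linarith)
        _ = _ := by
            rw [← ENNReal.ofReal_mul (by positivity), mul_comm]
    have h2 : Y ^ τ ≤ 10 ^ τ * T ^ τ := by
      rw [← Real.mul_rpow (by norm_num) hT0.le]
      exact Real.rpow_le_rpow (by positivity) (by rw [hY]; linarith) (by linarith)
    have h3 : T ≤ T ^ τ := by
      calc T = T ^ (1 : ℝ) := (Real.rpow_one T).symm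
        _ ≤ T ^ τ := Real.rpow_le_rpow_of_exponent_le (by linarith) hτ
    calc ∫⁻ u in Icc T (2 * T), S u
        = ENNReal.ofReal C * ENNReal.ofReal T + ENNReal.ofReal (C * E) * ∫⁻ u in Icc T (2 * T), R u := by
          simp only [hS]
          rw [lintegral_add_left' aemeasurable_const, lintegral_const,
            Measure.restrict_apply_univ, Real.volume_Icc,
            lintegral_const_mul' _ _ ENNReal.ofReal_ne_top]
          congr 3
          ring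
      _ ≤ ENNReal.ofReal C * ENNReal.ofReal (T ^ τ) +
          ENNReal.ofReal (C * E) * ENNReal.ofReal (Real.sqrt (2 * Real.pi) * (C₀ * (10 ^ τ * T ^ τ))) := by
          gcongr
          refine h1.trans (ENNReal.ofReal_le_ofReal ?_)
          gcongr
      _ = _ := by
          rw [← ENNReal.ofReal_mul hC, ← ENNReal.ofReal_mul (by positivity),
            ← ENNReal.ofReal_add (by positivity) (by positivity)]
          congr 1
          rw [hD]
          ring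
  have hmark := mul_meas_ge_le_lintegral₀ hSm (ENNReal.ofReal ((T / 2) ^ (2 * ε)))
  have hpos : 0 < (T / 2) ^ (2 * ε) := Real.rpow_pos_of_pos (by positivity) _
  set B := {u : ℝ | u ∈ Icc T (2 * T) ∧ ∃ t σ : ℝ, |t - u| ≤ 1 ∧ α + κ ≤ σ ∧ σ ≤ σ₁ ∧
      t ^ ε < ‖FF a w c ((σ : ℂ) + t * I)‖} with hB
  have hvol : volume B ≤ (volume.restrict (Icc T (2 * T)))
      {u | ENNReal.ofReal ((T / 2) ^ (2 * ε)) ≤ S u} := by
    refine (measure_mono hsub).trans ?_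
    exact Measure.le_restrict_apply _ _
  have hkey : ENNReal.ofReal ((T / 2) ^ (2 * ε)) * volume B ≤ ENNReal.ofReal (D * T ^ τ) :=
    (mul_le_mul_right hvol _).trans (hmark.trans hint)
  have e1 : ENNReal.ofReal (2 ^ (2 * ε) * D * T ^ (τ - 2 * ε)) =
      ENNReal.ofReal (((T / 2) ^ (2 * ε))⁻¹) * ENNReal.ofReal (D * T ^ τ) := by
    rw [← ENNReal.ofReal_mul (by positivity)]
    congr 1
    rw [Real.rpow_sub hT0, Real.div_rpow hT0.le (by norm_num)]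
    field_simp
  rw [e1]
  calc volume B = ENNReal.ofReal (((T / 2) ^ (2 * ε))⁻¹) * (ENNReal.ofReal ((T / 2) ^ (2 * ε)) * volume B) := by
        rw [← mul_assoc, ← ENNReal.ofReal_mul (by positivity), inv_mul_cancel₀ hpos.ne',
          ENNReal.ofReal_one, one_mul]
    _ ≤ _ := by gcongr

/-- a large value at an ordinate in `[n, n + 1]` -/
def BadAt (a : ℝ) (w : Fin r → ℝ) (c : ℕ → ℂ) (s₀ σ₁ ε : ℝ) (n : ℕ) : Prop :=
  ∃ t σ : ℝ, (n : ℝ) ≤ t ∧ t ≤ n + 1 ∧ s₀ ≤ σ ∧ σ ≤ σ₁ ∧ t ^ ε < ‖FF a w c ((σ : ℂ) + t * I)‖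

/-- the number of the unit intervals with a large value, in a dyadic block -/
theorem block_count (ha : 0 < a) (hw : ∀ j, 0 < w j) (hc : Tay a w c) {α κ σ₁ τ C₀ : ℝ}
    (hα : 0 < α) (hκ : 0 < κ) (hκ1 : κ ≤ 1) (hτ : 1 ≤ τ) (hC₀ : 0 ≤ C₀)
    (h : ∀ T : ℝ, 1 ≤ T → ∫⁻ t in Icc 1 T, ‖FF a w c ((α : ℂ) + t * I)‖ₑ ^ 2 ≤
      ENNReal.ofReal (C₀ * T ^ τ)) {ε : ℝ} (hε : 0 ≤ ε) :
    ∃ C : ℝ, 0 ≤ C ∧ ∀ Y : ℕ, 2 ≤ Y →
      ({n : ℕ | Y < n ∧ n ≤ 2 * Y + 1 ∧ BadAt a w c (α + κ) σ₁ ε n}.ncard : ℝ) ≤ C * ((Y : ℝ) + 1) ^ (τ - 2 * ε) := by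
  obtain ⟨C, hC, hm⟩ := win_measure (σ₁ := σ₁) ha hw hc hα hκ hκ1 hτ hC₀ h hε
  refine ⟨C, hC, fun Y hY => ?_⟩
  have hY2 : (2 : ℝ) ≤ Y := by exact_mod_cast hY
  have h1 := hm ((Y : ℝ) + 1) (by linarith)
  set A := {n : ℕ | Y < n ∧ n ≤ 2 * Y + 1 ∧ BadAt a w c (α + κ) σ₁ ε n} with hA
  have hfin : A.Finite := (Set.finite_Iic (2 * Y + 1)).subset (fun n hn => hn.2.1)
  set F := hfin.toFinset with hF
  have hsub : (⋃ n ∈ F, Ico (n : ℝ) (n + 1)) ⊆ {u : ℝ | u ∈ Icc ((Y : ℝ) + 1) (2 * ((Y : ℝ) + 1)) ∧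
      ∃ t σ : ℝ, |t - u| ≤ 1 ∧ α + κ ≤ σ ∧ σ ≤ σ₁ ∧ t ^ ε < ‖FF a w c ((σ : ℂ) + t * I)‖} := by
    intro u hu
    simp only [Set.mem_iUnion] at hu
    obtain ⟨n, hn, hu1, hu2⟩ := hu
    rw [hF, Set.Finite.mem_toFinset] at hn
    obtain ⟨g1, g2, t, σ, g3, g4, g5, g6, g7⟩ := hn
    have k1 : (Y : ℝ) + 1 ≤ n := by exact_mod_cast g1
    have k2 : (n : ℝ) ≤ 2 * Y + 1 := by exact_mod_cast g2
    refine ⟨⟨by linarith, by linarith⟩, t, σ, ?_, g5, g6, g7⟩
    rw [abs_le]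
    constructor <;> linarith
  have h2 : volume (⋃ n ∈ F, Ico (n : ℝ) (n + 1)) = (F.card : ENNReal) := by
    rw [measure_biUnion_finset]
    · simp
    · intro i _ j _ hij
      refine Set.disjoint_left.2 fun x hx hy => hij ?_
      obtain ⟨a1, a2⟩ := hx
      obtain ⟨b1, b2⟩ := hy
      have c1 : (i : ℝ) < j + 1 := by linarith
      have c2 : (j : ℝ) < i + 1 := by linarith
      have d1 : i < j + 1 := by exact_mod_cast c1
      have d2 : j < i + 1 := by exact_mod_cast c2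
      omega
    · intro i _
      exact measurableSet_Ico
  have h3 : (F.card : ENNReal) ≤ ENNReal.ofReal (C * ((Y : ℝ) + 1) ^ (τ - 2 * ε)) := by
    rw [← h2]
    exact (measure_mono hsub).trans h1
  rw [Set.ncard_eq_toFinset_card A hfin]
  have h4 : ((F.card : ℕ) : ENNReal) = ENNReal.ofReal (F.card : ℝ) := by
    rw [ENNReal.ofReal_natCast]
  rw [h4] at h3
  exact (ENNReal.ofReal_le_ofReal_iff (by positivity)).1 h3

/-- dyadic summation -/
theorem dyadic_nat (P : ℕ → Prop) {C s : ℝ} (hC : 0 ≤ C) (hs : 0 < s)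
    (h : ∀ Y : ℕ, 2 ≤ Y → ({n : ℕ | Y < n ∧ n ≤ 2 * Y + 1 ∧ P n}.ncard : ℝ) ≤ C * ((Y : ℝ) + 1) ^ s) :
    ∃ K : ℝ, 0 ≤ K ∧ ∀ X : ℕ, 1 ≤ X → ({n : ℕ | 1 ≤ n ∧ n ≤ X ∧ P n}.ncard : ℝ) ≤ K * (X : ℝ) ^ s := by
  have h2s : 1 < (2 : ℝ) ^ s := Real.one_lt_rpow (by norm_num) hs
  have hq : 0 < 1 - 1 / (2 : ℝ) ^ s := by
    rw [sub_pos, div_lt_one (by positivity)]
    exact h2s
  obtain ⟨K, hK⟩ : ∃ K : ℝ, K = C / (1 - 1 / (2 : ℝ) ^ s) + 5 := ⟨_, rfl⟩
  have hK5 : 5 ≤ K := by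
    rw [hK]
    have : 0 ≤ C / (1 - 1 / (2 : ℝ) ^ s) := by positivity
    linarith
  have hK1 : C ≤ K * (1 - 1 / (2 : ℝ) ^ s) := by
    rw [hK, add_mul, div_mul_cancel₀ _ hq.ne']
    linarith
  refine ⟨K, by linarith, fun X => ?_⟩
  induction X using Nat.strong_induction_on with
  | _ X ih =>
    intro hX
    have hX1 : (1 : ℝ) ≤ X := by exact_mod_cast hX
    rcases lt_or_ge X 5 with h5 | h5
    · have h1 : {n : ℕ | 1 ≤ n ∧ n ≤ X ∧ P n} ⊆ (Finset.Icc 1 X : Finset ℕ) := by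
        rintro n ⟨g1, g2, -⟩
        rw [Finset.mem_coe, Finset.mem_Icc]
        exact ⟨g1, g2⟩
      have h2 := Set.ncard_le_ncard h1 (Finset.finite_toSet _)
      rw [Set.ncard_coe_finset, Nat.card_Icc] at h2
      have h3 : ({n : ℕ | 1 ≤ n ∧ n ≤ X ∧ P n}.ncard : ℝ) ≤ 5 := by
        have : {n : ℕ | 1 ≤ n ∧ n ≤ X ∧ P n}.ncard ≤ 5 := by omega
        exact_mod_cast this
      have h4 : 1 ≤ (X : ℝ) ^ s := Real.one_le_rpow hX1 hs.le
      nlinarith
    · obtain ⟨Y, hY⟩ : ∃ Y, Y = X / 2 := ⟨_, rfl⟩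
      have hY2 : 2 ≤ Y := by omega
      have hYX : Y < X := by omega
      have hXY : X ≤ 2 * Y + 1 := by omega
      have hY1 : Y + 1 ≤ X := by omega
      have h1 := ih Y hYX (by omega)
      have h2 := h Y hY2
      have hsub : {n : ℕ | 1 ≤ n ∧ n ≤ X ∧ P n} ⊆ {n : ℕ | 1 ≤ n ∧ n ≤ Y ∧ P n} ∪
          {n : ℕ | Y < n ∧ n ≤ 2 * Y + 1 ∧ P n} := by
        rintro n ⟨g1, g2, g3⟩
        rcases le_or_gt n Y with g4 | g4
        · exact Or.inl ⟨g1, g4, g3⟩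
        · exact Or.inr ⟨g4, by omega, g3⟩
      have hf1 : ({n : ℕ | 1 ≤ n ∧ n ≤ Y ∧ P n} ∪ {n : ℕ | Y < n ∧ n ≤ 2 * Y + 1 ∧ P n}).Finite :=
        ((Set.finite_Iic Y).subset (fun n hn => hn.2.1)).union
          ((Set.finite_Iic (2 * Y + 1)).subset (fun n hn => hn.2.1))
      have h3 := (Set.ncard_le_ncard hsub hf1).trans (Set.ncard_union_le _ _)
      have h4 : ({n : ℕ | 1 ≤ n ∧ n ≤ X ∧ P n}.ncard : ℝ) ≤
          ({n : ℕ | 1 ≤ n ∧ n ≤ Y ∧ P n}.ncard : ℝ) + ({n : ℕ | Y < n ∧ n ≤ 2 * Y + 1 ∧ P n}.ncard : ℝ) := by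
        exact_mod_cast h3
      have hYr : (Y : ℝ) ≤ X / 2 := by
        rw [hY]
        exact Nat.cast_div_le
      have h5' : (Y : ℝ) ^ s ≤ 1 / (2 : ℝ) ^ s * (X : ℝ) ^ s := by
        calc (Y : ℝ) ^ s ≤ ((X : ℝ) / 2) ^ s := Real.rpow_le_rpow (Nat.cast_nonneg _) hYr hs.le
          _ = _ := by
            rw [Real.div_rpow (by linarith) (by norm_num)]
            ring
      have h6 : ((Y : ℝ) + 1) ^ s ≤ (X : ℝ) ^ s :=
        Real.rpow_le_rpow (by positivity) (by exact_mod_cast hY1) hs.le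
      calc ({n : ℕ | 1 ≤ n ∧ n ≤ X ∧ P n}.ncard : ℝ) ≤ K * (Y : ℝ) ^ s + C * ((Y : ℝ) + 1) ^ s := by linarith
        _ ≤ K * (1 / (2 : ℝ) ^ s * (X : ℝ) ^ s) + C * (X : ℝ) ^ s := by gcongr
        _ ≤ K * (1 / (2 : ℝ) ^ s * (X : ℝ) ^ s) + K * (1 - 1 / (2 : ℝ) ^ s) * (X : ℝ) ^ s := by gcongr
        _ = K * (X : ℝ) ^ s := by ring

/-- **The number of the unit intervals with a large value.** -/
theorem bad_count (ha : 0 < a) (hw : ∀ j, 0 < w j) (hc : Tay a w c) {α κ σ₁ τ C₀ : ℝ}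
    (hα : 0 < α) (hκ : 0 < κ) (hκ1 : κ ≤ 1) (hτ : 1 ≤ τ) (hC₀ : 0 ≤ C₀)
    (h : ∀ T : ℝ, 1 ≤ T → ∫⁻ t in Icc 1 T, ‖FF a w c ((α : ℂ) + t * I)‖ₑ ^ 2 ≤
      ENNReal.ofReal (C₀ * T ^ τ)) {ε s : ℝ} (hε : 0 ≤ ε) (hs : 0 < s) (hs1 : τ - 2 * ε ≤ s) :
    ∃ K : ℝ, 0 ≤ K ∧ ∀ X : ℕ, 1 ≤ X →
      ({n : ℕ | 1 ≤ n ∧ n ≤ X ∧ BadAt a w c (α + κ) σ₁ ε n}.ncard : ℝ) ≤ K * (X : ℝ) ^ s := by
  obtain ⟨C, hC, hb⟩ := block_count (σ₁ := σ₁) ha hw hc hα hκ hκ1 hτ hC₀ h hε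
  refine dyadic_nat _ hC hs (fun Y hY => (hb Y hY).trans ?_)
  have hY2 : (2 : ℝ) ≤ Y := by exact_mod_cast hY
  exact mul_le_mul_of_nonneg_left (Real.rpow_le_rpow_of_exponent_le (by linarith) hs1) hC

end Pool.Agent.N407.BZ
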